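import Pool.Agent.E8helper64.GC.Stm

/-!
# Project GC, part IND
-/

set_option autoImplicit false

namespace Pool.Agent.E8helper30.GC

open Pool.Agent.E8helper64.GC

universe u

/-- first vertices of the paths -/
def va : Fin 3 → Fin 11 := ![2, 5, 8]
/-- middle vertices of the paths -/
def vm : Fin 3 → Fin 11 := ![3, 6, 9]
/-- last vertices of the paths -/
def vz : Fin 3 → Fin 11 := ![4, 7, 10]
/-- first coordinates of the paths -/
def cp : Fin 3 → Fin 10 := ![0, 1, 2]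
/-- second coordinates of the paths -/
def cr : Fin 3 → Fin 10 := ![3, 4, 5]
/-- allowed coordinates -/
def sp : Fin 11 → List (Fin 10) :=
  ![[6, 7], [8, 9], [0, 6, 7], [0, 3, 6, 7, 8, 9], [3, 8, 9], [1, 6, 7], [1, 4, 6, 7, 8, 9], [4, 8, 9],
    [2, 6, 7], [2, 5, 6, 7, 8, 9], [5, 8, 9]]

lemma cases11 : ∀ s : Fin 11, s = 0 ∨ s = 1 ∨ (∃ i, s = va i) ∨ (∃ i, s = vm i) ∨ ∃ i, s = vz i := by
  decide

variable {K : Type u} [Field K] {Λ : Submodule K (Fin 10 → K)}

lemma ux_a (i : Fin 3) : Ux Λ (va i) ↔ U1 Λ (va i) 0 (cp i) := by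
  fin_cases i <;> rfl

lemma ux_z (i : Fin 3) : Ux Λ (vz i) ↔ U1 Λ (vz i) 1 (cr i) := by
  fin_cases i <;> rfl

lemma ux_m (i : Fin 3) : Ux Λ (vm i) ↔ U2 Λ (va i) (vm i) (vz i) (cp i) (cr i) := by
  fin_cases i <;> rfl

lemma mem_Lt {s : Fin 11} {x : Fin 10 → K} : x ∈ Lt K s ↔
    (∀ i, i ∉ al s → x i = 0) ∧ (s = 8 → x 6 = x 7) ∧ (s = 10 → x 8 = x 9) := Iff.rfl

lemma Lt_zero {s : Fin 11} {x : Fin 10 → K} (hx : x ∈ Lt K s) {j : Fin 10} (hj : j ∉ al s) : x j = 0 :=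
  hx.1 j hj

lemma sup_zero {s t : Fin 11} {x : Fin 10 → K} (hx : x ∈ Lt K s ⊔ Lt K t) {j : Fin 10}
    (hj : j ∉ al s) (hj' : j ∉ al t) : x j = 0 := by
  obtain ⟨y, hy, z, hz, rfl⟩ := Submodule.mem_sup.1 hx
  rw [Pi.add_apply, hy.1 j hj, hz.1 j hj', add_zero]

lemma E_apply (i j : Fin 10) : E K i j = if j = i then 1 else 0 := by
  unfold E
  rw [Pi.single_apply]

lemma E_mem_of {x : Fin 10 → K} (hx : x ∈ Λ) {j : Fin 10} (hj : x j ≠ 0)
    (h : ∀ k, k ≠ j → x k = 0) : E K j ∈ Λ := by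
  have : E K j = (x j)⁻¹ • x := by
    funext k
    rw [E_apply, Pi.smul_apply, smul_eq_mul]
    split_ifs with hk
    · subst hk; rw [inv_mul_cancel₀ hj]
    · rw [h k hk, mul_zero]
  rw [this]
  exact Λ.smul_mem _ hx

/-- a vector supported on two coordinates, one of them unit vector known -/
lemma E_mem_of' {x : Fin 10 → K} (hx : x ∈ Λ) {j l : Fin 10} (hlj : l ≠ j) (hj : x j ≠ 0)
    (hl : E K l ∈ Λ) (h : ∀ k, k ≠ j → k ≠ l → x k = 0) : E K j ∈ Λ := by
  refine E_mem_of (x := x - x l • E K l) (Λ.sub_mem hx (Λ.smul_mem _ hl)) (j := j) ?_ ?_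
  · rw [Pi.sub_apply, Pi.smul_apply, E_apply, if_neg hlj.symm, smul_zero, sub_zero]
    exact hj
  · intro k hk
    rw [Pi.sub_apply, Pi.smul_apply, E_apply]
    split_ifs with hkl
    · subst hkl; rw [smul_eq_mul, mul_one, sub_self]
    · rw [h k hk hkl, smul_zero, sub_zero]

lemma al_m : ∀ (i : Fin 3) (k : Fin 10), k ≠ cp i → k ≠ cr i → k ∉ al (vm i) := by decide
lemma al_a : ∀ (i : Fin 3) (k : Fin 10), k ∉ sp (va i) → k ∉ al (va i) ∧ k ∉ al 0 := by decide
lemma al_z : ∀ (i : Fin 3) (k : Fin 10), k ∉ sp (vz i) → k ∉ al (vz i) ∧ k ∉ al 1 := by decide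
lemma al_am : ∀ (i : Fin 3) (k : Fin 10), k ≠ cp i → k ≠ cr i → k ≠ 6 → k ≠ 7 →
    k ∉ al (va i) ∧ k ∉ al (vm i) := by decide
lemma al_zm : ∀ (i : Fin 3) (k : Fin 10), k ≠ cp i → k ≠ cr i → k ≠ 8 → k ≠ 9 →
    k ∉ al (vz i) ∧ k ∉ al (vm i) := by decide
lemma cp_ne_cr : ∀ i : Fin 3, cp i ≠ cr i := by decide
lemma cp_ne : ∀ i : Fin 3, cp i ≠ 6 ∧ cp i ≠ 7 ∧ cp i ≠ 8 ∧ cp i ≠ 9 := by decide
lemma cr_ne : ∀ i : Fin 3, cr i ≠ 6 ∧ cr i ≠ 7 ∧ cr i ≠ 8 ∧ cr i ≠ 9 := by decide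

lemma Lt_m_le (i : Fin 3) (h1 : E K (cp i) ∈ Λ) (h2 : E K (cr i) ∈ Λ) : Lt K (vm i) ≤ Λ := by
  intro x hx
  have : x = x (cp i) • E K (cp i) + x (cr i) • E K (cr i) := by
    funext k
    rw [Pi.add_apply, Pi.smul_apply, Pi.smul_apply, E_apply, E_apply, smul_eq_mul, smul_eq_mul]
    by_cases hk : k = cp i
    · subst hk
      rw [if_pos rfl, if_neg (cp_ne_cr i), mul_one, mul_zero, add_zero]
    · by_cases hk' : k = cr i
      · subst hk'
        rw [if_neg hk, if_pos rfl, mul_one, mul_zero, zero_add]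
      · rw [if_neg hk, if_neg hk', mul_zero, mul_zero, add_zero]
        exact hx.1 k (al_m i k hk hk')
  rw [this]
  exact Λ.add_mem (Λ.smul_mem _ h1) (Λ.smul_mem _ h2)

lemma E_mem_a (i : Fin 3) : E K (cp i) ∈ Lt K (va i) := by
  refine ⟨fun k hk => ?_, fun _ => ?_, fun _ => ?_⟩
  · rw [E_apply, if_neg]
    rintro rfl
    exact hk ((by decide : ∀ i : Fin 3, cp i ∈ al (va i)) i)
  · rw [E_apply, E_apply, if_neg (cp_ne i).1.symm, if_neg (cp_ne i).2.1.symm]
  · rw [E_apply, E_apply, if_neg (cp_ne i).2.2.1.symm, if_neg (cp_ne i).2.2.2.symm]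

lemma E_mem_z (i : Fin 3) : E K (cr i) ∈ Lt K (vz i) := by
  refine ⟨fun k hk => ?_, fun _ => ?_, fun _ => ?_⟩
  · rw [E_apply, if_neg]
    rintro rfl
    exact hk ((by decide : ∀ i : Fin 3, cr i ∈ al (vz i)) i)
  · rw [E_apply, E_apply, if_neg (cr_ne i).1.symm, if_neg (cr_ne i).2.1.symm]
  · rw [E_apply, E_apply, if_neg (cr_ne i).2.2.1.symm, if_neg (cr_ne i).2.2.2.symm]

/-- one of the two blocks vanishes -/
def Half (x : Fin 10 → K) : Prop := (x 6 = 0 ∧ x 7 = 0) ∨ (x 8 = 0 ∧ x 9 = 0)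

/-- the vector lies in the sum of the lines of every set which contains `s` and all the ends that count -/
def Mem (Λ : Submodule K (Fin 10 → K)) (s : Fin 11) (x : Fin 10 → K) : Prop :=
  ∀ S : Finset (Fin 11), s ∈ S → (∀ t, Us Λ t → (∀ i, t ≠ vm i) → t ∈ S) → x ∈ ⨆ t ∈ S, Lt K t

/-- the three alternatives for a middle vertex -/
def Mid (Λ : Submodule K (Fin 10 → K)) (i : Fin 3) (x : Fin 10 → K) : Prop :=
  (x ∈ Lt K (vm i) ∧ x (cp i) ≠ 0 ∧ x (cr i) ≠ 0) ∨
  (E K (cp i) ∈ Λ ∧ x ∈ Lt K (va i) ⊔ Lt K (vm i) ∧ x (cr i) ≠ 0) ∨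
  (E K (cr i) ∈ Λ ∧ x ∈ Lt K (vz i) ⊔ Lt K (vm i) ∧ x (cp i) ≠ 0)

/-- the good choice of a vector -/
structure Good (Λ : Submodule K (Fin 10 → K)) (s : Fin 11) (x : Fin 10 → K) : Prop where
  mem : x ∈ Λ
  ne : x ≠ 0
  zero : ∀ j, j ∉ sp s → x j = 0
  half : Half x
  sup : Mem Λ s x
  ha : ∀ i, s = va i → x (cp i) ≠ 0 ∧ (E K (cp i) ∈ Λ → x = E K (cp i))
  hz : ∀ i, s = vz i → x (cr i) ≠ 0 ∧ (E K (cr i) ∈ Λ → x = E K (cr i))
  hm : ∀ i, s = vm i → Mid Λ i x

lemma le_iSup_two {S : Finset (Fin 11)} {s : Fin 11} (hs : s ∈ S) : Lt K s ≤ ⨆ t ∈ S, Lt K t :=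
  le_iSup₂_of_le s hs le_rfl

lemma mem_of_Lt {s : Fin 11} {x : Fin 10 → K} (hx : x ∈ Lt K s) : Mem Λ s x :=
  fun _ hs _ => le_iSup_two hs hx

lemma mem_of_sup {s t : Fin 11} {x : Fin 10 → K} (hx : x ∈ Lt K s ⊔ Lt K t) (ht : Us Λ s)
    (hm : ∀ i, s ≠ vm i) : Mem Λ t x :=
  fun S hs h => (sup_le (le_iSup_two (h s ht hm)) (le_iSup_two hs) :
    Lt K s ⊔ Lt K t ≤ ⨆ r ∈ S, Lt K r) hx

lemma exists_ne {s : Fin 11} (h : Λ ⊓ Lt K s ≠ ⊥) : ∃ x ∈ Λ, x ∈ Lt K s ∧ x ≠ 0 := by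
  obtain ⟨x, hx, h0⟩ := Submodule.exists_mem_ne_zero_of_ne_bot h
  exact ⟨x, hx.1, hx.2, h0⟩

lemma inf_ne {s : Fin 11} {x : Fin 10 → K} (h1 : x ∈ Λ) (h2 : x ∈ Lt K s) (h0 : x ≠ 0) :
    Λ ⊓ Lt K s ≠ ⊥ := by
  intro h
  apply h0
  have : x ∈ Λ ⊓ Lt K s := ⟨h1, h2⟩
  rw [h] at this
  exact this

/-- the lines at the ends -/
lemma exU1 {s t : Fin 11} {c : Fin 10} (h1 : ∀ z ∈ Lt K s, z c = 0 → z ∈ Lt K t)
    (hE : E K c ∈ Lt K s) (h : Λ ⊓ Lt K s ≠ ⊥) (hU : U1 Λ s t c) :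
    ∃ x ∈ Λ, x c ≠ 0 ∧ (E K c ∈ Λ → x = E K c) ∧ x ∈ Lt K s ⊔ Lt K t ∧
      (x ∈ Lt K s ∨ Λ ⊓ Lt K t ≠ ⊥) := by
  by_cases hE' : E K c ∈ Λ
  · refine ⟨E K c, hE', ?_, fun _ => rfl, Submodule.mem_sup_left hE, Or.inl hE⟩
    rw [E_apply, if_pos rfl]; exact one_ne_zero
  · obtain ⟨z, hz1, hz2, hz0⟩ := exists_ne h
    by_cases hzc : z c = 0
    · obtain ⟨q, hq, hq', hqc⟩ := hU
      exact ⟨q, hq, hqc, fun h => absurd h hE', hq', Or.inr (inf_ne hz1 (h1 z hz2 hzc) hz0)⟩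
    · exact ⟨z, hz1, hzc, fun h => absurd h hE', Submodule.mem_sup_left hz2, Or.inl hz2⟩

lemma a_to_zero (i : Fin 3) (z : Fin 10 → K) (hz : z ∈ Lt K (va i)) (h : z (cp i) = 0) : z ∈ Lt K 0 := by
  refine ⟨fun k hk => ?_, fun h => absurd h (by decide), fun h => absurd h (by decide)⟩
  by_cases hk' : k = cp i
  · rw [hk', h]
  · exact hz.1 k ((by decide : ∀ (i : Fin 3) (k : Fin 10), k ∉ al 0 → k ≠ cp i → k ∉ al (va i)) i k hk hk')

lemma z_to_one (i : Fin 3) (z : Fin 10 → K) (hz : z ∈ Lt K (vz i)) (h : z (cr i) = 0) : z ∈ Lt K 1 := by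
  refine ⟨fun k hk => ?_, fun h => absurd h (by decide), fun h => absurd h (by decide)⟩
  by_cases hk' : k = cr i
  · rw [hk', h]
  · exact hz.1 k ((by decide : ∀ (i : Fin 3) (k : Fin 10), k ∉ al 1 → k ≠ cr i → k ∉ al (vz i)) i k hk hk')

lemma al_0 : ∀ j : Fin 10, j ∉ sp 0 → j ∉ al 0 := by decide
lemma al_1 : ∀ j : Fin 10, j ∉ sp 1 → j ∉ al 1 := by decide

lemma good_zero (h : Us Λ 0) : ∃ x, Good Λ 0 x := by
  obtain ⟨x, h1, h2, h0⟩ := exists_ne h.1
  exact ⟨x, h1, h0, fun j hj => h2.1 j (al_0 j hj), Or.inr ⟨h2.1 8 (by decide), h2.1 9 (by decide)⟩, mem_of_Lt h2,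
    fun i hi => absurd hi ((by decide : ∀ i : Fin 3, (0 : Fin 11) ≠ va i) i),
    fun i hi => absurd hi ((by decide : ∀ i : Fin 3, (0 : Fin 11) ≠ vz i) i),
    fun i hi => absurd hi ((by decide : ∀ i : Fin 3, (0 : Fin 11) ≠ vm i) i)⟩

lemma good_one (h : Us Λ 1) : ∃ x, Good Λ 1 x := by
  obtain ⟨x, h1, h2, h0⟩ := exists_ne h.1
  exact ⟨x, h1, h0, fun j hj => h2.1 j (al_1 j hj), Or.inl ⟨h2.1 6 (by decide), h2.1 7 (by decide)⟩, mem_of_Lt h2,
    fun i hi => absurd hi ((by decide : ∀ i : Fin 3, (1 : Fin 11) ≠ va i) i),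
    fun i hi => absurd hi ((by decide : ∀ i : Fin 3, (1 : Fin 11) ≠ vz i) i),
    fun i hi => absurd hi ((by decide : ∀ i : Fin 3, (1 : Fin 11) ≠ vm i) i)⟩

lemma good_a (i : Fin 3) (h : Us Λ (va i)) : ∃ x, Good Λ (va i) x := by
  obtain ⟨x, h1, h2, h3, h4, h5⟩ := exU1 (a_to_zero i) (E_mem_a i) h.1 ((ux_a i).1 h.2)
  have hz : ∀ j, j ∉ sp (va i) → x j = 0 := fun j hj => sup_zero h4 (al_a i j hj).1 (al_a i j hj).2
  refine ⟨x, h1, ?_, hz, Or.inr ⟨?_, ?_⟩, ?_, ?_, ?_, ?_⟩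
  · rintro rfl; exact h2 rfl
  · exact hz 8 ((by decide : ∀ i : Fin 3, (8 : Fin 10) ∉ sp (va i)) i)
  · exact hz 9 ((by decide : ∀ i : Fin 3, (9 : Fin 10) ∉ sp (va i)) i)
  · rcases h5 with h5 | h5
    · exact mem_of_Lt h5
    · rw [sup_comm] at h4
      exact mem_of_sup h4 ⟨h5, trivial⟩ (by decide)
  · intro k hk
    obtain rfl := (by decide : ∀ i k : Fin 3, va i = va k → i = k) i k hk
    exact ⟨h2, h3⟩
  · intro k hk
    exact absurd hk ((by decide : ∀ i k : Fin 3, va i ≠ vz k) i k)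
  · intro k hk
    exact absurd hk ((by decide : ∀ i k : Fin 3, va i ≠ vm k) i k)

lemma good_z (i : Fin 3) (h : Us Λ (vz i)) : ∃ x, Good Λ (vz i) x := by
  obtain ⟨x, h1, h2, h3, h4, h5⟩ := exU1 (z_to_one i) (E_mem_z i) h.1 ((ux_z i).1 h.2)
  have hz : ∀ j, j ∉ sp (vz i) → x j = 0 := fun j hj => sup_zero h4 (al_z i j hj).1 (al_z i j hj).2
  refine ⟨x, h1, ?_, hz, Or.inl ⟨?_, ?_⟩, ?_, ?_, ?_, ?_⟩
  · rintro rfl; exact h2 rfl
  · exact hz 6 ((by decide : ∀ i : Fin 3, (6 : Fin 10) ∉ sp (vz i)) i)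
  · exact hz 7 ((by decide : ∀ i : Fin 3, (7 : Fin 10) ∉ sp (vz i)) i)
  · rcases h5 with h5 | h5
    · exact mem_of_Lt h5
    · rw [sup_comm] at h4
      exact mem_of_sup h4 ⟨h5, trivial⟩ (by decide)
  · intro k hk
    exact absurd hk ((by decide : ∀ i k : Fin 3, vz i ≠ va k) i k)
  · intro k hk
    obtain rfl := (by decide : ∀ i k : Fin 3, vz i = vz k → i = k) i k hk
    exact ⟨h2, h3⟩
  · intro k hk
    exact absurd hk ((by decide : ∀ i k : Fin 3, vz i ≠ vm k) i k)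

lemma us_a_of (i : Fin 3) (h : E K (cp i) ∈ Λ) : Us Λ (va i) := by
  have hne : E K (cp i) (cp i) ≠ 0 := by rw [E_apply, if_pos rfl]; exact one_ne_zero
  refine ⟨inf_ne h (E_mem_a i) fun h0 => hne (by rw [h0]; rfl), (ux_a i).2 ⟨_, h, ?_, hne⟩⟩
  exact Submodule.mem_sup_left (E_mem_a i)

lemma us_z_of (i : Fin 3) (h : E K (cr i) ∈ Λ) : Us Λ (vz i) := by
  have hne : E K (cr i) (cr i) ≠ 0 := by rw [E_apply, if_pos rfl]; exact one_ne_zero
  refine ⟨inf_ne h (E_mem_z i) fun h0 => hne (by rw [h0]; rfl), (ux_z i).2 ⟨_, h, ?_, hne⟩⟩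
  exact Submodule.mem_sup_left (E_mem_z i)

lemma good_m (i : Fin 3) (h : Us Λ (vm i)) : ∃ x, Good Λ (vm i) x := by
  have hcase : ∃ x ∈ Λ, x ≠ 0 ∧ (∀ j, j ∉ sp (vm i) → x j = 0) ∧ Half x ∧ Mem Λ (vm i) x ∧ Mid Λ i x := by
    have s1 : ∀ (i : Fin 3) (j : Fin 10), j ∉ sp (vm i) → j ≠ cp i ∧ j ≠ cr i ∧ j ≠ 6 ∧ j ≠ 7 ∧ j ≠ 8 ∧
      j ≠ 9 := by decide
    rcases (ux_m i).1 h.2 with ⟨z, h1, h2, h3, h4⟩ | ⟨hE, q, h1, h2, h3⟩ | ⟨hE, q, h1, h2, h3⟩
    · have hz : ∀ j, j ≠ cp i → j ≠ cr i → z j = 0 := fun j hj hj' => h2.1 j (al_m i j hj hj')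
      refine ⟨z, h1, ?_, fun j hj => hz j (s1 i j hj).1 (s1 i j hj).2.1,
        Or.inl ⟨hz 6 (cp_ne i).1.symm (cr_ne i).1.symm, hz 7 (cp_ne i).2.1.symm (cr_ne i).2.1.symm⟩,
        mem_of_Lt h2, Or.inl ⟨h2, h3, h4⟩⟩
      rintro rfl; exact h3 rfl
    · have hz : ∀ j, j ≠ cp i → j ≠ cr i → j ≠ 6 → j ≠ 7 → q j = 0 := fun j a1 a2 a3 a4 =>
        sup_zero h2 (al_am i j a1 a2 a3 a4).1 (al_am i j a1 a2 a3 a4).2
      refine ⟨q, h1, ?_, fun j hj => hz j (s1 i j hj).1 (s1 i j hj).2.1 (s1 i j hj).2.2.1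
        (s1 i j hj).2.2.2.1,
        Or.inr ⟨hz 8 (cp_ne i).2.2.1.symm (cr_ne i).2.2.1.symm (by decide) (by decide),
          hz 9 (cp_ne i).2.2.2.symm (cr_ne i).2.2.2.symm (by decide) (by decide)⟩,
        mem_of_sup h2 (us_a_of i hE) ((by decide : ∀ i k : Fin 3, va i ≠ vm k) i),
        Or.inr (Or.inl ⟨hE, h2, h3⟩)⟩
      rintro rfl; exact h3 rfl
    · have hz : ∀ j, j ≠ cp i → j ≠ cr i → j ≠ 8 → j ≠ 9 → q j = 0 := fun j a1 a2 a3 a4 =>
        sup_zero h2 (al_zm i j a1 a2 a3 a4).1 (al_zm i j a1 a2 a3 a4).2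
      refine ⟨q, h1, ?_, fun j hj => hz j (s1 i j hj).1 (s1 i j hj).2.1 (s1 i j hj).2.2.2.2.1
        (s1 i j hj).2.2.2.2.2,
        Or.inl ⟨hz 6 (cp_ne i).1.symm (cr_ne i).1.symm (by decide) (by decide),
          hz 7 (cp_ne i).2.1.symm (cr_ne i).2.1.symm (by decide) (by decide)⟩,
        mem_of_sup h2 (us_z_of i hE) ((by decide : ∀ i k : Fin 3, vz i ≠ vm k) i),
        Or.inr (Or.inr ⟨hE, h2, h3⟩)⟩
      rintro rfl; exact h3 rfl
  obtain ⟨x, h1, h2, h3, h4, h5, h6⟩ := hcase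
  refine ⟨x, h1, h2, h3, h4, h5, ?_, ?_, ?_⟩
  · intro k hk
    exact absurd hk ((by decide : ∀ i k : Fin 3, vm i ≠ va k) i k)
  · intro k hk
    exact absurd hk ((by decide : ∀ i k : Fin 3, vm i ≠ vz k) i k)
  · intro k hk
    obtain rfl := (by decide : ∀ i k : Fin 3, vm i = vm k → i = k) i k hk
    exact h6

lemma exists_good (s : Fin 11) (h : Us Λ s) : ∃ x, Good Λ s x := by
  rcases cases11 s with rfl | rfl | ⟨i, rfl⟩ | ⟨i, rfl⟩ | ⟨i, rfl⟩
  · exact good_zero h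
  · exact good_one h
  · exact good_a i h
  · exact good_m i h
  · exact good_z i h

lemma sum_two {S : Finset (Fin 11)} {u : Fin 11 → Fin 10 → K} {c : Fin 11 → K}
    (hu : ∀ s ∈ S, ∀ j, j ∉ sp s → u s j = 0) (hc : ∑ s ∈ S, c s • u s = 0)
    (hcS : ∀ s, s ∉ S → c s = 0) {j : Fin 10} {a b : Fin 11} (hab : a ≠ b)
    (h : ∀ s, s ≠ a → s ≠ b → j ∉ sp s) : c a * u a j + c b * u b j = 0 := by
  have h1 := congrFun hc j
  rw [Finset.sum_apply, Pi.zero_apply] at h1
  rw [← h1]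
  symm
  have h2 : ∑ s ∈ S, (c s • u s) j = ∑ s : Fin 11, c s * u s j := by
    rw [← Finset.sum_subset (Finset.subset_univ S)]
    · rfl
    · intro s _ hs
      rw [hcS s hs, zero_mul]
  rw [h2]
  have : ∑ s : Fin 11, c s * u s j = ∑ s ∈ ({a, b} : Finset (Fin 11)), c s * u s j := by
    symm
    apply Finset.sum_subset (Finset.subset_univ _)
    intro s _ hs
    rw [Finset.mem_insert, Finset.mem_singleton, not_or] at hs
    by_cases hsS : s ∈ S
    · rw [hu s hsS j (h s hs.1 hs.2), mul_zero]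
    · rw [hcS s hsS, zero_mul]
  rw [this, Finset.sum_pair hab]

/-- independence -/
lemma key (S : Finset (Fin 11)) (hS : ∀ s ∈ S, Us Λ s)
    (hB : (∀ i, vm i ∉ S) ∨ ((∀ t, Us Λ t → (∀ i, t ≠ vm i) → t ∈ S) ∧ S.card ≤ 4))
    (hL : ∀ s, ¬ Lt K s ≤ Λ) (u : Fin 11 → Fin 10 → K) (hu : ∀ s, Us Λ s → Good Λ s (u s))
    (c : Fin 11 → K) (hc : ∑ s ∈ S, c s • u s = 0) (hcS : ∀ s, s ∉ S → c s = 0) : ∀ s, c s = 0 := by
  have hsp : ∀ s ∈ S, ∀ j, j ∉ sp s → u s j = 0 := fun s hs => (hu s (hS s hs)).zero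
  have hcoA : ∀ i, c (va i) * u (va i) (cp i) + c (vm i) * u (vm i) (cp i) = 0 := fun i =>
    sum_two hsp hc hcS ((by decide : ∀ i : Fin 3, va i ≠ vm i) i)
      ((by decide : ∀ (i : Fin 3) (s : Fin 11), s ≠ va i → s ≠ vm i → cp i ∉ sp s) i)
  have hcoZ : ∀ i, c (vz i) * u (vz i) (cr i) + c (vm i) * u (vm i) (cr i) = 0 := fun i =>
    sum_two hsp hc hcS ((by decide : ∀ i : Fin 3, vz i ≠ vm i) i)
      ((by decide : ∀ (i : Fin 3) (s : Fin 11), s ≠ vz i → s ≠ vm i → cr i ∉ sp s) i)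
  have hm : ∀ i, c (vm i) = 0 := by
    intro i
    by_contra hcm
    have hmS : vm i ∈ S := by
      by_contra h; exact hcm (hcS _ h)
    obtain ⟨hB1, hB2⟩ := hB.resolve_left fun h => h i hmS
    have gm := hu _ (hS _ hmS)
    have hmid := gm.hm i rfl
    -- facts on the blocks
    have main : va i ∈ S ∧ vz i ∈ S ∧
        ¬ (c (va i) * u (va i) 6 + c (vm i) * u (vm i) 6 = 0 ∧
          c (va i) * u (va i) 7 + c (vm i) * u (vm i) 7 = 0) ∧
        ¬ (c (vz i) * u (vz i) 8 + c (vm i) * u (vm i) 8 = 0 ∧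
          c (vz i) * u (vz i) 9 + c (vm i) * u (vm i) 9 = 0) := by
      rcases hmid with ⟨h1, h2, h3⟩ | ⟨hE, h1, h2⟩ | ⟨hE, h1, h2⟩
      · -- case (a)
        have ca : c (va i) ≠ 0 := by
          intro h0
          have := hcoA i
          rw [h0, zero_mul, zero_add] at this
          exact (mul_ne_zero hcm h2) this
        have cz : c (vz i) ≠ 0 := by
          intro h0
          have := hcoZ i
          rw [h0, zero_mul, zero_add] at this
          exact (mul_ne_zero hcm h3) this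
        have haS : va i ∈ S := by by_contra h; exact ca (hcS _ h)
        have hzS : vz i ∈ S := by by_contra h; exact cz (hcS _ h)
        have ga := hu _ (hS _ haS)
        have gz := hu _ (hS _ hzS)
        have hm0 : ∀ j, j ≠ cp i → j ≠ cr i → u (vm i) j = 0 := fun j hj hj' => h1.1 j (al_m i j hj hj')
        have m6 := hm0 6 (cp_ne i).1.symm (cr_ne i).1.symm
        have m7 := hm0 7 (cp_ne i).2.1.symm (cr_ne i).2.1.symm
        have m8 := hm0 8 (cp_ne i).2.2.1.symm (cr_ne i).2.2.1.symm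
        have m9 := hm0 9 (cp_ne i).2.2.2.symm (cr_ne i).2.2.2.symm
        refine ⟨haS, hzS, ?_, ?_⟩
        · rintro ⟨e6, e7⟩
          rw [m6, mul_zero, add_zero] at e6
          rw [m7, mul_zero, add_zero] at e7
          have a6 := (mul_eq_zero.1 e6).resolve_left ca
          have a7 := (mul_eq_zero.1 e7).resolve_left ca
          have hEa : E K (cp i) ∈ Λ := by
            refine E_mem_of ga.mem (ga.ha i rfl).1 fun k hk => ?_
            by_cases h6 : k = 6
            · rw [h6, a6]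
            · by_cases h7 : k = 7
              · rw [h7, a7]
              · exact ga.zero k ((by decide : ∀ (i : Fin 3) (k : Fin 10), k ≠ cp i → k ≠ 6 → k ≠ 7 →
                  k ∉ sp (va i)) i k hk h6 h7)
          have hEz : E K (cr i) ∈ Λ := E_mem_of' gm.mem (cp_ne_cr i) h3 hEa fun k hk hk' => hm0 k hk' hk
          exact hL _ (Lt_m_le i hEa hEz)
        · rintro ⟨e8, e9⟩
          rw [m8, mul_zero, add_zero] at e8
          rw [m9, mul_zero, add_zero] at e9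
          have a8 := (mul_eq_zero.1 e8).resolve_left cz
          have a9 := (mul_eq_zero.1 e9).resolve_left cz
          have hEz : E K (cr i) ∈ Λ := by
            refine E_mem_of gz.mem (gz.hz i rfl).1 fun k hk => ?_
            by_cases h8 : k = 8
            · rw [h8, a8]
            · by_cases h9 : k = 9
              · rw [h9, a9]
              · exact gz.zero k ((by decide : ∀ (i : Fin 3) (k : Fin 10), k ≠ cr i → k ≠ 8 → k ≠ 9 →
                  k ∉ sp (vz i)) i k hk h8 h9)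
          have hEa : E K (cp i) ∈ Λ := E_mem_of' gm.mem (cp_ne_cr i).symm h2 hEz fun k hk hk' =>
            hm0 k hk hk'
          exact hL _ (Lt_m_le i hEa hEz)
      · -- case (b)
        have haS : va i ∈ S := hB1 _ (us_a_of i hE) ((by decide : ∀ i k : Fin 3, va i ≠ vm k) i)
        have ga := hu _ (hS _ haS)
        have hua := (ga.ha i rfl).2 hE
        have cz : c (vz i) ≠ 0 := by
          intro h0
          have := hcoZ i
          rw [h0, zero_mul, zero_add] at this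
          exact (mul_ne_zero hcm h2) this
        have hzS : vz i ∈ S := by by_contra h; exact cz (hcS _ h)
        have gz := hu _ (hS _ hzS)
        have hm0 : ∀ j, j ≠ cp i → j ≠ cr i → j ≠ 6 → j ≠ 7 → u (vm i) j = 0 := fun j a1 a2 a3 a4 =>
          sup_zero h1 (al_am i j a1 a2 a3 a4).1 (al_am i j a1 a2 a3 a4).2
        have m8 := hm0 8 (cp_ne i).2.2.1.symm (cr_ne i).2.2.1.symm (by decide) (by decide)
        have m9 := hm0 9 (cp_ne i).2.2.2.symm (cr_ne i).2.2.2.symm (by decide) (by decide)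
        have a6 : u (va i) 6 = 0 := by rw [hua, E_apply, if_neg (cp_ne i).1.symm]
        have a7 : u (va i) 7 = 0 := by rw [hua, E_apply, if_neg (cp_ne i).2.1.symm]
        refine ⟨haS, hzS, ?_, ?_⟩
        · rintro ⟨e6, e7⟩
          rw [a6, mul_zero, zero_add] at e6
          rw [a7, mul_zero, zero_add] at e7
          have m6 := (mul_eq_zero.1 e6).resolve_left hcm
          have m7 := (mul_eq_zero.1 e7).resolve_left hcm
          have hEz : E K (cr i) ∈ Λ := E_mem_of' gm.mem (cp_ne_cr i) h2 hE fun k hk hk' => by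
            by_cases h6 : k = 6
            · rw [h6, m6]
            · by_cases h7 : k = 7
              · rw [h7, m7]
              · exact hm0 k hk' hk h6 h7
          exact hL _ (Lt_m_le i hE hEz)
        · rintro ⟨e8, e9⟩
          rw [m8, mul_zero, add_zero] at e8
          rw [m9, mul_zero, add_zero] at e9
          have a8 := (mul_eq_zero.1 e8).resolve_left cz
          have a9 := (mul_eq_zero.1 e9).resolve_left cz
          have hEz : E K (cr i) ∈ Λ := by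
            refine E_mem_of gz.mem (gz.hz i rfl).1 fun k hk => ?_
            by_cases h8 : k = 8
            · rw [h8, a8]
            · by_cases h9 : k = 9
              · rw [h9, a9]
              · exact gz.zero k ((by decide : ∀ (i : Fin 3) (k : Fin 10), k ≠ cr i → k ≠ 8 → k ≠ 9 →
                  k ∉ sp (vz i)) i k hk h8 h9)
          exact hL _ (Lt_m_le i hE hEz)
      · -- case (c)
        have hzS : vz i ∈ S := hB1 _ (us_z_of i hE) ((by decide : ∀ i k : Fin 3, vz i ≠ vm k) i)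
        have gz := hu _ (hS _ hzS)
        have huz := (gz.hz i rfl).2 hE
        have ca : c (va i) ≠ 0 := by
          intro h0
          have := hcoA i
          rw [h0, zero_mul, zero_add] at this
          exact (mul_ne_zero hcm h2) this
        have haS : va i ∈ S := by by_contra h; exact ca (hcS _ h)
        have ga := hu _ (hS _ haS)
        have hm0 : ∀ j, j ≠ cp i → j ≠ cr i → j ≠ 8 → j ≠ 9 → u (vm i) j = 0 := fun j a1 a2 a3 a4 =>
          sup_zero h1 (al_zm i j a1 a2 a3 a4).1 (al_zm i j a1 a2 a3 a4).2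
        have m6 := hm0 6 (cp_ne i).1.symm (cr_ne i).1.symm (by decide) (by decide)
        have m7 := hm0 7 (cp_ne i).2.1.symm (cr_ne i).2.1.symm (by decide) (by decide)
        have a8 : u (vz i) 8 = 0 := by rw [huz, E_apply, if_neg (cr_ne i).2.2.1.symm]
        have a9 : u (vz i) 9 = 0 := by rw [huz, E_apply, if_neg (cr_ne i).2.2.2.symm]
        refine ⟨haS, hzS, ?_, ?_⟩
        · rintro ⟨e6, e7⟩
          rw [m6, mul_zero, add_zero] at e6
          rw [m7, mul_zero, add_zero] at e7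
          have a6 := (mul_eq_zero.1 e6).resolve_left ca
          have a7 := (mul_eq_zero.1 e7).resolve_left ca
          have hEa : E K (cp i) ∈ Λ := by
            refine E_mem_of ga.mem (ga.ha i rfl).1 fun k hk => ?_
            by_cases h6 : k = 6
            · rw [h6, a6]
            · by_cases h7 : k = 7
              · rw [h7, a7]
              · exact ga.zero k ((by decide : ∀ (i : Fin 3) (k : Fin 10), k ≠ cp i → k ≠ 6 → k ≠ 7 →
                  k ∉ sp (va i)) i k hk h6 h7)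
          exact hL _ (Lt_m_le i hEa hE)
        · rintro ⟨e8, e9⟩
          rw [a8, mul_zero, zero_add] at e8
          rw [a9, mul_zero, zero_add] at e9
          have m8 := (mul_eq_zero.1 e8).resolve_left hcm
          have m9 := (mul_eq_zero.1 e9).resolve_left hcm
          have hEa : E K (cp i) ∈ Λ := E_mem_of' gm.mem (cp_ne_cr i).symm h2 hE fun k hk hk' => by
            by_cases h8 : k = 8
            · rw [h8, m8]
            · by_cases h9 : k = 9
              · rw [h9, m9]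
              · exact hm0 k hk hk' h8 h9
          exact hL _ (Lt_m_le i hEa hE)
    obtain ⟨haS, hzS, n67, n89⟩ := main
    -- the rest of S has at most one element
    set S' := ((S.erase (va i)).erase (vz i)).erase (vm i) with hS'
    have hza : vz i ∈ S.erase (va i) :=
      Finset.mem_erase.2 ⟨(by decide : ∀ i : Fin 3, vz i ≠ va i) i, hzS⟩
    have hma : vm i ∈ (S.erase (va i)).erase (vz i) :=
      Finset.mem_erase.2 ⟨(by decide : ∀ i : Fin 3, vm i ≠ vz i) i,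
        Finset.mem_erase.2 ⟨(by decide : ∀ i : Fin 3, vm i ≠ va i) i, hmS⟩⟩
    have hcard : S'.card ≤ 1 := by
      rw [hS', Finset.card_erase_of_mem hma, Finset.card_erase_of_mem hza, Finset.card_erase_of_mem haS]
      omega
    have hsum : ∑ s ∈ S', c s • u s + (c (vm i) • u (vm i)) + (c (vz i) • u (vz i)) +
        (c (va i) • u (va i)) = 0 := by
      rw [hS', Finset.sum_erase_add _ _ hma, Finset.sum_erase_add _ _ hza, Finset.sum_erase_add _ _ haS]
      exact hc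
    set W := ∑ s ∈ S', c s • u s with hW
    have hWh : Half W := by
      rcases Nat.le_one_iff_eq_zero_or_eq_one.1 hcard with h0 | h1
      · rw [Finset.card_eq_zero] at h0
        rw [hW, h0, Finset.sum_empty]
        exact Or.inl ⟨rfl, rfl⟩
      · obtain ⟨w, hw⟩ := Finset.card_eq_one.1 h1
        have hwS : w ∈ S := by
          have : w ∈ S' := by rw [hw]; exact Finset.mem_singleton_self w
          rw [hS'] at this
          exact Finset.mem_of_mem_erase (Finset.mem_of_mem_erase (Finset.mem_of_mem_erase this))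
        rw [hW, hw, Finset.sum_singleton]
        rcases (hu w (hS w hwS)).half with ⟨h6, h7⟩ | ⟨h8, h9⟩
        · exact Or.inl ⟨by rw [Pi.smul_apply, h6, smul_zero], by rw [Pi.smul_apply, h7, smul_zero]⟩
        · exact Or.inr ⟨by rw [Pi.smul_apply, h8, smul_zero], by rw [Pi.smul_apply, h9, smul_zero]⟩
    have hco : ∀ j, W j + c (vm i) * u (vm i) j + c (vz i) * u (vz i) j + c (va i) * u (va i) j = 0 := by
      intro j
      have := congrFun hsum j
      simpa only [Pi.add_apply, Pi.smul_apply, smul_eq_mul, Pi.zero_apply] using this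
    have ga := hu _ (hS _ haS)
    have gz := hu _ (hS _ hzS)
    rcases hWh with ⟨w6, w7⟩ | ⟨w8, w9⟩
    · apply n67
      have z6 : u (vz i) 6 = 0 := gz.zero 6 ((by decide : ∀ i : Fin 3, (6 : Fin 10) ∉ sp (vz i)) i)
      have z7 : u (vz i) 7 = 0 := gz.zero 7 ((by decide : ∀ i : Fin 3, (7 : Fin 10) ∉ sp (vz i)) i)
      have h6 := hco 6
      have h7 := hco 7
      rw [w6, z6] at h6
      rw [w7, z7] at h7
      constructor
      · linear_combination h6
      · linear_combination h7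
    · apply n89
      have z8 : u (va i) 8 = 0 := ga.zero 8 ((by decide : ∀ i : Fin 3, (8 : Fin 10) ∉ sp (va i)) i)
      have z9 : u (va i) 9 = 0 := ga.zero 9 ((by decide : ∀ i : Fin 3, (9 : Fin 10) ∉ sp (va i)) i)
      have h8 := hco 8
      have h9 := hco 9
      rw [w8, z8] at h8
      rw [w9, z9] at h9
      constructor
      · linear_combination h8
      · linear_combination h9
  have ha : ∀ i, c (va i) = 0 := by
    intro i
    by_cases hS1 : va i ∈ S
    · have := hcoA i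
      rw [hm i, zero_mul, add_zero] at this
      exact (mul_eq_zero.1 this).resolve_right ((hu _ (hS _ hS1)).ha i rfl).1
    · exact hcS _ hS1
  have hz : ∀ i, c (vz i) = 0 := by
    intro i
    by_cases hS1 : vz i ∈ S
    · have := hcoZ i
      rw [hm i, zero_mul, add_zero] at this
      exact (mul_eq_zero.1 this).resolve_right ((hu _ (hS _ hS1)).hz i rfl).1
    · exact hcS _ hS1
  have hrest : ∀ s, s ≠ 0 → s ≠ 1 → c s = 0 := by
    intro s h0 h1
    rcases cases11 s with h | h | ⟨i, rfl⟩ | ⟨i, rfl⟩ | ⟨i, rfl⟩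
    · exact absurd h h0
    · exact absurd h h1
    · exact ha i
    · exact hm i
    · exact hz i
  have h01 : c 0 • u 0 + c 1 • u 1 = 0 := by
    have e1 : ∑ s ∈ S, c s • u s = ∑ s : Fin 11, c s • u s := by
      apply Finset.sum_subset (Finset.subset_univ S)
      intro s _ hs
      rw [hcS s hs, zero_smul]
    have e2 : ∑ s ∈ ({0, 1} : Finset (Fin 11)), c s • u s = ∑ s : Fin 11, c s • u s := by
      apply Finset.sum_subset (Finset.subset_univ _)
      intro s _ hs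
      rw [Finset.mem_insert, Finset.mem_singleton, not_or] at hs
      rw [hrest s hs.1 hs.2, zero_smul]
    have e3 := Finset.sum_pair (f := fun s => c s • u s) (by decide : (0 : Fin 11) ≠ 1)
    rw [← e3, e2, ← e1, hc]
  have h0 : c 0 = 0 := by
    by_cases hS0 : (0 : Fin 11) ∈ S
    · by_contra hc0
      have g0 := hu _ (hS _ hS0)
      apply g0.ne
      funext j
      rw [Pi.zero_apply]
      by_cases hj : j ∈ sp 0
      · have hj1 : j ∉ sp 1 := (by decide : ∀ j : Fin 10, j ∈ sp 0 → j ∉ sp 1) j hj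
        have := congrFun h01 j
        rw [Pi.add_apply, Pi.smul_apply, Pi.smul_apply, Pi.zero_apply, smul_eq_mul, smul_eq_mul] at this
        have hc1 : c 1 * u 1 j = 0 := by
          by_cases hS1 : (1 : Fin 11) ∈ S
          · rw [(hu _ (hS _ hS1)).zero j hj1, mul_zero]
          · rw [hcS _ hS1, zero_mul]
        rw [hc1, add_zero] at this
        exact (mul_eq_zero.1 this).resolve_left hc0
      · exact g0.zero j hj
    · exact hcS _ hS0
  have h1 : c 1 = 0 := by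
    by_cases hS1 : (1 : Fin 11) ∈ S
    · rw [h0, zero_smul, zero_add] at h01
      exact (smul_eq_zero.1 h01).resolve_right (hu _ (hS _ hS1)).ne
    · exact hcS _ hS1
  intro s
  by_cases hs0 : s = 0
  · rw [hs0, h0]
  · by_cases hs1 : s = 1
    · rw [hs1, h1]
    · exact hrest s hs0 hs1

/-- IND -/
theorem t_IND : S_IND.{u} := by
  intro K _ Λ hfr hL hcard
  classical
  choose! u hu using (fun s h => exists_good (Λ := Λ) s h)
  -- independence in the form needed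
  have hind : ∀ S : Finset (Fin 11), (∀ s ∈ S, Us Λ s) →
      ((∀ i, vm i ∉ S) ∨ ((∀ t, Us Λ t → (∀ i, t ≠ vm i) → t ∈ S) ∧ S.card ≤ 4)) →
      LinearIndependent K (fun s : S => u s) := by
    intro S hS hB
    rw [Fintype.linearIndependent_iff]
    intro g hg
    have h1 : ∑ s ∈ S, (if h : s ∈ S then g ⟨s, h⟩ else 0) • u s = 0 := by
      rw [← hg, ← Finset.sum_coe_sort]
      refine Finset.sum_congr rfl fun s _ => ?_
      rw [dif_pos s.2]
    have h2 := key S hS hB hL u hu (fun s => if h : s ∈ S then g ⟨s, h⟩ else 0) h1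
      (fun s hs => dif_neg hs)
    intro s
    have := h2 s
    simpa using this
  have hle : ∀ S : Finset (Fin 11), (∀ s ∈ S, Us Λ s) →
      ((∀ i, vm i ∉ S) ∨ ((∀ t, Us Λ t → (∀ i, t ≠ vm i) → t ∈ S) ∧ S.card ≤ 4)) → S.card ≤ 4 := by
    intro S hS hB
    have h1 := hind S hS hB
    have h2 : LinearIndependent K (fun s : S => (⟨u s, (hu s (hS s s.2)).mem⟩ : Λ)) := by
      apply LinearIndependent.of_comp Λ.subtype
      exact h1
    have h3 := h2.fintype_card_le_finrank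
    rw [hfr, Fintype.card_coe] at h3
    exact h3
  -- the set of the ends that count
  set UU : Finset (Fin 11) := Finset.univ.filter (Us Λ) with hUU
  set B : Finset (Fin 11) := UU.filter (fun s => ∀ i, s ≠ vm i) with hB
  have hUUcard : 4 ≤ UU.card := by
    have : {s | Us Λ s} = (UU : Set (Fin 11)) := by
      ext s; simp [hUU]
    rw [this, Set.ncard_coe_finset] at hcard
    exact hcard
  have hBcard : B.card ≤ 4 := by
    apply hle B
    · intro s hs
      rw [hB, Finset.mem_filter, hUU, Finset.mem_filter] at hs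
      exact hs.1.2
    · left
      intro i hi
      rw [hB, Finset.mem_filter] at hi
      exact hi.2 i rfl
  obtain ⟨S, hBS, hSU, hScard⟩ := Finset.exists_subsuperset_card_eq (Finset.filter_subset _ UU : B ⊆ UU)
    hBcard hUUcard
  have hSUs : ∀ s ∈ S, Us Λ s := by
    intro s hs
    have := hSU hs
    rw [hUU, Finset.mem_filter] at this
    exact this.2
  have hends : ∀ t, Us Λ t → (∀ i, t ≠ vm i) → t ∈ S := by
    intro t ht hti
    apply hBS
    rw [Finset.mem_filter, hUU, Finset.mem_filter]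
    exact ⟨⟨Finset.mem_univ t, ht⟩, hti⟩
  refine ⟨S, hScard.le, ?_⟩
  have h1 := hind S hSUs (Or.inr ⟨hends, hScard.le⟩)
  have h2 : LinearIndependent K (fun s : S => (⟨u s, (hu s (hSUs s s.2)).mem⟩ : Λ)) := by
    apply LinearIndependent.of_comp Λ.subtype
    exact h1
  have h3 : Submodule.span K (Set.range (fun s : S => (⟨u s, (hu s (hSUs s s.2)).mem⟩ : Λ))) = ⊤ := by
    apply h2.span_eq_top_of_card_eq_finrank'
    rw [Fintype.card_coe, hScard, hfr]
  intro x hx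
  have h4 : (⟨x, hx⟩ : Λ) ∈ Submodule.span K (Set.range (fun s : S => (⟨u s, (hu s (hSUs s s.2)).mem⟩ : Λ))) := by
    rw [h3]; trivial
  have h5 : Submodule.map Λ.subtype (Submodule.span K
      (Set.range (fun s : S => (⟨u s, (hu s (hSUs s s.2)).mem⟩ : Λ)))) ≤ ⨆ t ∈ S, Lt K t := by
    rw [Submodule.map_span_le]
    rintro _ ⟨s, rfl⟩
    exact (hu s (hSUs s s.2)).sup S s.2 hends
  exact h5 ⟨⟨x, hx⟩, h4, rfl⟩

end Pool.Agent.E8helper30.GC
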